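import Pool.Agent.H723R3.EuclidMain

set_option autoImplicit false
set_option linter.unusedSectionVars false

/-!
# Euclidean lattices, isotropic forms included

The descent of `Pool.Agent.H723R3` for arbitrary (not necessarily free) lattices and for forms which
may be isotropic.
-/

namespace Pool.Agent.Y374.EU

open IsDedekindDomain Pool.Agent.H723R3

section Descent

variable {R : Type*} [CommRing R] [IsDomain R] [Ring.HasFiniteQuotients R]
  {K : Type*} [Field K] [Algebra R K] [IsFractionRing R K]
  {V : Type*} [AddCommGroup V] [Module K V] [Module R V] [IsScalarTower R K V]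
  {Q : QuadraticForm K V} {L : Submodule R V}

/-- the descent without anisotropy -/
theorem exists_isometry_le (hL : IntegralOn Q L)
    (hfin : ∀ v : V, ordIdeal L v ≠ ⊥)
    (heucl : ∀ x : V, x ∉ L → ∃ y ∈ L, Q (x - y) ≠ 0 ∧ fracNorm R K (Q (x - y)) < 1) :
    ∀ (k : ℕ) (M : Submodule R V), IntegralOn Q M →
      L.toAddSubgroup.relIndex M.toAddSubgroup ≠ 0 →
      L.toAddSubgroup.relIndex M.toAddSubgroup = k →
      ∃ g : V ≃ₗ[K] V, (∀ x, Q (g x) = Q x) ∧ ∀ x ∈ M, g x ∈ L := by
  intro k
  induction k using Nat.strong_induction_on with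
  | _ k ih =>
    intro M hM hne hk
    by_cases hML : M ≤ L
    · exact ⟨LinearEquiv.refl K V, fun x => rfl, fun x hx => hML hx⟩
    · obtain ⟨m, hm, hmL⟩ := Set.not_subset.1 hML
      obtain ⟨y, hy, hw, hlt⟩ := heucl m hmL
      have hstep := descent_step hL hM hm hy hw hlt hfin hne
      obtain ⟨h1, h2⟩ := hstep
      have hM' : IntegralOn Q (M.map ((refl Q (m - y) hw).toLinearMap.restrictScalars R)) := by
        rintro _ ⟨x, hx, rfl⟩
        obtain ⟨r, hr⟩ := hM x hx
        exact ⟨r, by rw [hr]; exact (refl_isometry _ hw x).symm⟩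
      obtain ⟨g, hg1, hg2⟩ := ih _ (hk ▸ h2) _ hM' h1 rfl
      refine ⟨(refl Q (m - y) hw).trans g, ?_, ?_⟩
      · intro x
        rw [LinearEquiv.trans_apply, hg1, refl_isometry]
      · intro x hx
        rw [LinearEquiv.trans_apply]
        exact hg2 _ ⟨x, hx, rfl⟩

end Descent

section Local

variable {R : Type*} [CommRing R] [IsDedekindDomain R] [Ring.HasFiniteQuotients R]
  {K : Type*} [Field K] [Algebra R K] [IsFractionRing R K] {n : ℕ}
  {a : Matrix (Fin n) (Fin n) K}

theorem formQ_map (v : HeightOneSpectrum R) (x : Fin n → K) :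
    formQ a (v.adicCompletion K) (fun i => algebraMap K (v.adicCompletion K) (x i)) =
      algebraMap K (v.adicCompletion K) (formQ a K x) := by
  rw [formQ_apply, formQ_apply, formVal_map]

theorem int_mem (v : HeightOneSpectrum R) {k : K} (h : ∃ r : R, algebraMap R K r = k) :
    algebraMap K (v.adicCompletion K) k ∈ v.adicCompletionIntegers K := by
  obtain ⟨r, rfl⟩ := h
  rw [← IsScalarTower.algebraMap_apply]
  exact algebraMap_R_mem v r

theorem polar_local (v : HeightOneSpectrum R) {L : Submodule R (Fin n → K)}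
    (hL : IntegralOn (formQ a K) L) {z w : Fin n → v.adicCompletion K}
    (hz : z ∈ localLattice v L) (hw : w ∈ localLattice v L) :
    QuadraticMap.polar (formQ a (v.adicCompletion K)) z w ∈ v.adicCompletionIntegers K := by
  set Q := formQ a (v.adicCompletion K) with hQ
  have hιadd : ∀ x y : Fin n → K, (fun i => algebraMap K (v.adicCompletion K) ((x + y) i)) =
      (fun i => algebraMap K (v.adicCompletion K) (x i)) +
        (fun i => algebraMap K (v.adicCompletion K) (y i)) := by
    intro x y
    ext i
    simp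
  have h1 : ∀ z ∈ localLattice v L, ∀ l ∈ L, QuadraticMap.polar Q z
      (fun i => algebraMap K (v.adicCompletion K) (l i)) ∈ v.adicCompletionIntegers K := by
    intro z hz l hl
    rw [localLattice] at hz
    induction hz using Submodule.span_induction with
    | mem z hz =>
      obtain ⟨m, hm, rfl⟩ := hz
      obtain ⟨r, hr⟩ := polar_integral hL hm hl
      have : QuadraticMap.polar Q (fun i => algebraMap K (v.adicCompletion K) (m i))
          (fun i => algebraMap K (v.adicCompletion K) (l i)) =
          algebraMap K (v.adicCompletion K) (QuadraticMap.polar (formQ a K) m l) := by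
        rw [QuadraticMap.polar, QuadraticMap.polar, ← hιadd, hQ, formQ_map, formQ_map, formQ_map,
          map_sub, map_sub]
      rw [this]
      exact int_mem v ⟨r, hr⟩
    | zero =>
      rw [QuadraticMap.polar_zero_left]
      exact zero_mem _
    | add x y _ _ hx hy =>
      rw [QuadraticMap.polar_add_left]
      exact add_mem hx hy
    | smul c x _ hx =>
      have : c • x = (c : v.adicCompletion K) • x := rfl
      rw [this, QuadraticMap.polar_smul_left, smul_eq_mul]
      exact mul_mem c.2 hx
  rw [localLattice] at hw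
  induction hw using Submodule.span_induction with
  | mem w hw =>
    obtain ⟨m, hm, rfl⟩ := hw
    exact h1 z hz m hm
  | zero =>
    rw [QuadraticMap.polar_zero_right]
    exact zero_mem _
  | add x y _ _ hx hy =>
    rw [QuadraticMap.polar_add_right]
    exact add_mem hx hy
  | smul c x _ hx =>
    have : c • x = (c : v.adicCompletion K) • x := rfl
    rw [this, QuadraticMap.polar_smul_right, smul_eq_mul]
    exact mul_mem c.2 hx

/-- an integral lattice is integral over the completions -/
theorem integral_local (v : HeightOneSpectrum R) {L : Submodule R (Fin n → K)}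
    (hL : IntegralOn (formQ a K) L) {z : Fin n → v.adicCompletion K}
    (hz : z ∈ localLattice v L) : formQ a (v.adicCompletion K) z ∈ v.adicCompletionIntegers K := by
  have hz' := hz
  rw [localLattice] at hz
  induction hz using Submodule.span_induction with
  | mem z hz =>
    obtain ⟨m, hm, rfl⟩ := hz
    rw [formQ_map]
    exact int_mem v (hL m hm)
  | zero =>
    rw [QuadraticMap.map_zero]
    exact zero_mem _
  | add x y hx hy h1 h2 =>
    rw [QuadraticMap.map_add (⇑(formQ a (v.adicCompletion K)))]
    exact add_mem (add_mem (h1 hx) (h2 hy)) (polar_local v hL hx hy)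
  | smul c x hx h1 =>
    have : c • x = (c : v.adicCompletion K) • x := rfl
    rw [this, QuadraticMap.map_smul, smul_eq_mul]
    exact mul_mem (mul_mem c.2 c.2) (h1 hx)

/-- a common multiplier for the standard basis -/
theorem exists_mult {M : Submodule R (Fin n → K)}
    (hM : Submodule.span K (M : Set (Fin n → K)) = ⊤) :
    ∃ D : R, D ≠ 0 ∧ ∀ i : Fin n, D • (Pi.single i (1 : K) : Fin n → K) ∈ M := by
  classical
  have hd : ∀ i : Fin n, ∃ d : R, d ≠ 0 ∧ d • (Pi.single i (1 : K) : Fin n → K) ∈ M := by
    intro i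
    obtain ⟨d, hd, hd0⟩ := Submodule.exists_mem_ne_zero_of_ne_bot
      (ordIdeal_ne_bot_of_span hM (Pi.single i (1 : K) : Fin n → K))
    exact ⟨d, hd0, hd⟩
  choose d hd0 hdM using hd
  refine ⟨∏ i, d i, Finset.prod_ne_zero_iff.2 fun i _ => hd0 i, fun i => ?_⟩
  rw [← Finset.prod_erase_mul _ _ (Finset.mem_univ i), mul_smul]
  exact M.smul_mem _ (hdM i)

/-- multiples of integral vectors lie in the completed lattice -/
theorem mult_mem (v : HeightOneSpectrum R) {M : Submodule R (Fin n → K)} {D : R}
    (hD : ∀ i : Fin n, D • (Pi.single i (1 : K) : Fin n → K) ∈ M)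
    {x : Fin n → v.adicCompletion K} (hx : ∀ i, x i ∈ v.adicCompletionIntegers K) :
    algebraMap R (v.adicCompletion K) D • x ∈ localLattice v M := by
  have hsum : algebraMap R (v.adicCompletion K) D • x =
      ∑ i, (⟨x i, hx i⟩ : v.adicCompletionIntegers K) •
      (fun j => algebraMap K (v.adicCompletion K)
        ((D • (Pi.single i (1 : K) : Fin n → K)) j)) := by
    funext j
    rw [Finset.sum_apply, Finset.sum_eq_single j]
    · have e1 : (D • (Pi.single j (1 : K) : Fin n → K)) j = algebraMap R K D := by
        rw [Pi.smul_apply, Pi.single_eq_same, Algebra.smul_def, mul_one]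
      rw [Rv_smul_apply, e1, ← IsScalarTower.algebraMap_apply]
      change algebraMap R (v.adicCompletion K) D * x j = x j * algebraMap R (v.adicCompletion K) D
      exact mul_comm _ _
    · intro b _ hb
      rw [Rv_smul_apply, Pi.smul_apply, Pi.single_eq_of_ne (Ne.symm hb)]
      simp
    · simp
  rw [hsum]
  exact Submodule.sum_mem _ fun i _ => Submodule.smul_mem _ _
    (Submodule.subset_span ⟨_, hD i, rfl⟩)

/-- the genus of a lattice `L` of the quadratic space with the matrix `a` -/
structure InGenusOf (a : Matrix (Fin n) (Fin n) K) (L M : Submodule R (Fin n → K)) : Prop where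
  /-- `M` is finitely generated. -/
  fg : M.FG
  /-- `M` spans `K ^ n`. -/
  span_eq_top : Submodule.span K (M : Set (Fin n → K)) = ⊤
  /-- `M` is isometric to `L` over the completion of `R` at every maximal ideal. -/
  locally_isometric : ∀ v : HeightOneSpectrum R,
    Isometric a (localLattice v M) (localLattice v L)

theorem integralOn_of_genus {L M : Submodule R (Fin n → K)} (hL : IntegralOn (formQ a K) L)
    (hM : InGenusOf a L M) : IntegralOn (formQ a K) M := by
  intro x hx
  rw [formQ_apply]
  have hmem : formVal a x ∈ (algebraMap R K).range := by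
    apply HeightOneSpectrum.mem_integers_of_valuation_le_one
    intro v
    obtain ⟨e, he⟩ := hM.locally_isometric v
    have h1 := he ⟨_, mem_localLattice v hx⟩
    have h2 : formVal a (fun i => algebraMap K (v.adicCompletion K) (x i)) ∈
        v.adicCompletionIntegers K := by
      rw [← h1, ← formQ_apply]
      exact integral_local v hL (e ⟨_, mem_localLattice v hx⟩).2
    rwa [formVal_map, algebraMap_mem_iff] at h2
  obtain ⟨r, hr⟩ := hmem
  exact ⟨r, hr⟩

/-- The local step for an arbitrary lattice `L`. -/
theorem exists_bad_vector (v : HeightOneSpectrum R) {L M : Submodule R (Fin n → K)}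
    (hL : IntegralOn (formQ a K) L) (hLs : Submodule.span K (L : Set (Fin n → K)) = ⊤)
    (hM : InGenusOf a L M) {x₀ : Fin n → K} {d : R} (hd : d ≠ 0) (hdx : d • x₀ ∈ M)
    (hx₀ : (fun i => algebraMap K (v.adicCompletion K) (x₀ i)) ∉ localLattice v M)
    (hint : ∀ m ∈ M, ∃ r : R, algebraMap R K r = formVal a (x₀ + m)) :
    ∃ x' : Fin n → K, x' ∉ L ∧
      ∀ y ∈ L, ∃ r : R, algebraMap R K r = formVal a (x' - y) := by
  classical
  set Kv := v.adicCompletion K with hKv
  set Q := formQ a Kv with hQ
  set ι : (Fin n → K) → (Fin n → Kv) := fun x i => algebraMap K Kv (x i) with hι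
  obtain ⟨e, he⟩ := hM.locally_isometric v
  have hdKv : algebraMap R Kv d ≠ 0 := by
    rw [IsScalarTower.algebraMap_apply R K Kv]
    simpa using hd
  have hιadd : ∀ x y, ι (x + y) = ι x + ι y := by
    intro x y
    ext i
    simp [hι]
  have hιsmul : ∀ (r : R) x, ι (r • x) = algebraMap R Kv r • ι x := by
    intro r x
    funext i
    change algebraMap K Kv (r • x i) = algebraMap R Kv r * algebraMap K Kv (x i)
    rw [Algebra.smul_def, map_mul, ← IsScalarTower.algebraMap_apply]
  have hQι : ∀ x, Q (ι x) = algebraMap K Kv (formVal a x) := by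
    intro x
    rw [hQ, formQ_apply, hι, formVal_map]
  have hQ0 : Q (ι x₀) ∈ v.adicCompletionIntegers K := by
    obtain ⟨r, hr⟩ := hint 0 M.zero_mem
    rw [add_zero] at hr
    rw [hQι]
    exact int_mem v ⟨r, hr⟩
  have hMint := integralOn_of_genus hL hM
  have hpol : ∀ z ∈ localLattice v M, QuadraticMap.polar Q (ι x₀) z ∈ v.adicCompletionIntegers K := by
    intro z hz
    rw [localLattice] at hz
    induction hz using Submodule.span_induction with
    | mem z hz =>
      obtain ⟨m, hm, rfl⟩ := hz
      change QuadraticMap.polar Q (ι x₀) (ι m) ∈ _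
      have h1 := hint m hm
      have h2 := hMint m hm
      rw [formQ_apply] at h2
      rw [QuadraticMap.polar, ← hιadd, hQι, hQι m]
      exact sub_mem (sub_mem (int_mem v h1) hQ0) (int_mem v h2)
    | zero =>
      rw [QuadraticMap.polar_zero_right]
      exact zero_mem _
    | add x y _ _ hx hy =>
      rw [QuadraticMap.polar_add_right]
      exact add_mem hx hy
    | smul c x _ hx =>
      have : c • x = (c : Kv) • x := rfl
      rw [this, QuadraticMap.polar_smul_right, smul_eq_mul]
      exact mul_mem c.2 hx
  set m0 : localLattice v M := ⟨ι (d • x₀), mem_localLattice v hdx⟩ with hm0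
  set z : Fin n → Kv := (e m0 : Fin n → Kv) with hz
  set x₁ : Fin n → Kv := (algebraMap R Kv d)⁻¹ • z with hx₁
  have hdx₁ : algebraMap R Kv d • x₁ = z := by
    rw [hx₁, smul_smul, mul_inv_cancel₀ hdKv, one_smul]
  set dv : v.adicCompletionIntegers K := ⟨algebraMap R Kv d, algebraMap_R_mem v d⟩ with hdv
  have hx₁not : x₁ ∉ localLattice v L := by
    intro hmem
    apply hx₀
    have h1 : dv • (⟨x₁, hmem⟩ : localLattice v L) = e m0 := by
      apply Subtype.ext
      exact hdx₁
    have h2 : dv • e.symm ⟨x₁, hmem⟩ = m0 := by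
      rw [← map_smul, h1, LinearEquiv.symm_apply_apply]
    have h3 : algebraMap R Kv d • (e.symm ⟨x₁, hmem⟩ : Fin n → Kv) =
        algebraMap R Kv d • ι x₀ := by
      rw [← hιsmul]
      exact congrArg Subtype.val h2
    have h4 : (e.symm ⟨x₁, hmem⟩ : Fin n → Kv) = ι x₀ := smul_right_injective _ hdKv h3
    change ι x₀ ∈ _
    rw [← h4]
    exact (e.symm ⟨x₁, hmem⟩).2
  have hval : ∀ l ∈ localLattice v L, Q (x₁ + l) ∈ v.adicCompletionIntegers K := by
    intro l hl
    set m' := e.symm ⟨l, hl⟩ with hm'
    have h1 : e (m0 + dv • m') = ⟨z, (e m0).2⟩ + dv • ⟨l, hl⟩ := by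
      rw [map_add, map_smul, hm', LinearEquiv.apply_symm_apply]
    have h2 := he (m0 + dv • m')
    rw [h1] at h2
    have h3 : (((⟨z, (e m0).2⟩ + dv • ⟨l, hl⟩ : localLattice v L)) :
        Fin n → Kv) = algebraMap R Kv d • (x₁ + l) := by
      rw [smul_add, hdx₁]
      rfl
    have h4 : ((m0 + dv • m' : localLattice v M) : Fin n → Kv) =
        algebraMap R Kv d • (ι x₀ + (m' : Fin n → Kv)) := by
      rw [smul_add, ← hιsmul]
      rfl
    rw [h3, h4, ← formQ_apply, ← formQ_apply, QuadraticMap.map_smul, QuadraticMap.map_smul,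
      smul_eq_mul, smul_eq_mul] at h2
    have h5 : Q (x₁ + l) = Q (ι x₀ + (m' : Fin n → Kv)) :=
      mul_left_cancel₀ (mul_ne_zero hdKv hdKv) h2
    rw [h5, QuadraticMap.map_add (⇑Q)]
    refine add_mem (add_mem hQ0 ?_) (hpol _ m'.2)
    have h6 := he m'
    rw [hQ, formQ_apply, ← h6, hm', LinearEquiv.apply_symm_apply, ← formQ_apply]
    exact integral_local v hL hl
  -- strong approximation with a multiplier
  obtain ⟨D, hD0, hD⟩ := exists_mult hLs
  have hDKv : algebraMap R Kv D ≠ 0 := by
    rw [IsScalarTower.algebraMap_apply R K Kv]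
    simpa using hD0
  have happ := fun i => exists_approx_strong v ((algebraMap R Kv D)⁻¹ * x₁ i)
  choose x'' hx'v hx'w using happ
  obtain ⟨x', hx'⟩ : ∃ x' : Fin n → K, x' = D • x'' := ⟨_, rfl⟩
  have hdiff : ι x' - x₁ ∈ localLattice v L := by
    have h1 := mult_mem v hD (x := fun i => algebraMap K Kv (x'' i) - (algebraMap R Kv D)⁻¹ * x₁ i)
      hx'v
    have h2 : (algebraMap R Kv D • fun i => algebraMap K Kv (x'' i) - (algebraMap R Kv D)⁻¹ * x₁ i) =
        ι x' - x₁ := by
      rw [hx', hιsmul]
      funext i
      simp only [hι, Pi.smul_apply, Pi.sub_apply, smul_eq_mul]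
      rw [mul_sub, ← mul_assoc, mul_inv_cancel₀ hDKv, one_mul]
    rw [← h2]
    exact h1
  refine ⟨x', ?_, ?_⟩
  · intro hmem
    apply hx₁not
    have h1 := (localLattice v L).sub_mem (mem_localLattice v hmem) hdiff
    have h2 : (fun i => algebraMap K (v.adicCompletion K) (x' i)) - (ι x' - x₁) = x₁ := by
      change ι x' - (ι x' - x₁) = x₁
      abel
    rwa [h2] at h1
  · intro y hy
    have hmem : formVal a (x' - y) ∈ (algebraMap R K).range := by
      apply HeightOneSpectrum.mem_integers_of_valuation_le_one
      intro w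
      by_cases hw : w = v
      · subst hw
        rw [← algebraMap_mem_iff, ← hQι]
        have h1 : ι (x' - y) = x₁ + ((ι x' - x₁) - ι y) := by
          have : ι (x' - y) = ι x' - ι y := by
            ext i
            simp [hι]
          rw [this]
          abel
        rw [h1]
        exact hval _ ((localLattice w L).sub_mem hdiff (mem_localLattice w hy))
      · have h1 : (fun i => algebraMap K (w.adicCompletion K) (x' i)) ∈ localLattice w L := by
          have h2 := mult_mem w hD (x := fun i => algebraMap K (w.adicCompletion K) (x'' i))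
            (fun i => (algebraMap_mem_iff w _).2 (hx'w i w hw))
          have h3 : (algebraMap R (w.adicCompletion K) D •
              fun i => algebraMap K (w.adicCompletion K) (x'' i)) =
              (fun i => algebraMap K (w.adicCompletion K) (x' i)) := by
            rw [hx']
            funext i
            change algebraMap R (w.adicCompletion K) D * algebraMap K (w.adicCompletion K) (x'' i) =
              algebraMap K (w.adicCompletion K) (D • x'' i)
            rw [Algebra.smul_def, map_mul, ← IsScalarTower.algebraMap_apply]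
          rw [← h3]
          exact h2
        have h4 := (localLattice w L).sub_mem h1 (mem_localLattice w hy)
        have h5 : (fun i => algebraMap K (w.adicCompletion K) (x' i)) -
            (fun i => algebraMap K (w.adicCompletion K) (y i)) =
            fun i => algebraMap K (w.adicCompletion K) ((x' - y) i) := by
          ext i
          simp
        rw [h5] at h4
        have h6 := integral_local w hL h4
        rw [formQ_map, algebraMap_mem_iff, formQ_apply] at h6
        exact h6
    obtain ⟨r, hr⟩ := hmem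
    exact ⟨r, hr⟩

end Local

section Main

variable {R : Type*} [CommRing R] [IsDedekindDomain R] [Ring.HasFiniteQuotients R]
  {K : Type*} [Field K] [Algebra R K] [IsFractionRing R K] {n : ℕ}
  {a : Matrix (Fin n) (Fin n) K}

theorem norm_ge {k : K} (h0 : k ≠ 0) (h : ∃ r : R, algebraMap R K r = k) : 1 ≤ fracNorm R K k := by
  obtain ⟨r, rfl⟩ := h
  rw [fracNorm_algebraMap]
  have hr : r ≠ 0 := by
    rintro rfl
    exact h0 (map_zero _)
  have h2 : 1 ≤ ringNorm R r := ringNorm_pos hr
  exact_mod_cast h2

/-- **Euclidean lattices have class number one**, by isometries of the space -/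
theorem genus_eq {L M : Submodule R (Fin n → K)}
    (hLs : Submodule.span K (L : Set (Fin n → K)) = ⊤) (hL : IntegralOn (formQ a K) L)
    (heucl : ∀ x : Fin n → K, x ∉ L → ∃ y ∈ L, formQ a K (x - y) ≠ 0 ∧
      fracNorm R K (formQ a K (x - y)) < 1) (hM : InGenusOf a L M) :
    ∃ g : (Fin n → K) ≃ₗ[K] (Fin n → K), (∀ x, formQ a K (g x) = formQ a K x) ∧
      ∀ x, g x ∈ L ↔ x ∈ M := by
  have hMint := integralOn_of_genus hL hM
  have hLfin : ∀ x : Fin n → K, ordIdeal L x ≠ ⊥ := fun x => ordIdeal_ne_bot_of_span hLs x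
  obtain ⟨g, hg1, hg2⟩ := exists_isometry_le hL hLfin heucl _ M hMint
    (relIndex_ne_zero_of_fg hLfin M hM.fg) rfl
  refine ⟨g, hg1, fun x₀ => ⟨fun hx => ?_, fun hx => hg2 x₀ hx⟩⟩
  by_contra hnot
  have hne : ordIdeal M x₀ ≠ ⊤ := by
    intro h
    have h1 : (1 : R) ∈ ordIdeal M x₀ := by rw [h]; trivial
    rw [mem_ordIdeal, one_smul] at h1
    exact hnot h1
  have hnb : ordIdeal M x₀ ≠ ⊥ := ordIdeal_ne_bot_of_span hM.span_eq_top x₀
  obtain ⟨𝔪, hmax, hle⟩ := Ideal.exists_le_maximal _ hne
  have h𝔪 : 𝔪 ≠ ⊥ := by
    rintro rfl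
    exact hnb (le_bot_iff.1 hle)
  obtain ⟨v, hv⟩ : ∃ v : HeightOneSpectrum R, v.asIdeal = 𝔪 := ⟨⟨𝔪, hmax.isPrime, h𝔪⟩, rfl⟩
  obtain ⟨d, hd, hd0⟩ := Submodule.exists_mem_ne_zero_of_ne_bot hnb
  have hloc : (fun i => algebraMap K (v.adicCompletion K) (x₀ i)) ∉ localLattice v M := by
    intro h
    obtain ⟨s, hs, hsM⟩ := exists_notMem_smul_mem v hM.span_eq_top h
    apply hs
    rw [hv]
    exact hle hsM
  have hint : ∀ m ∈ M, ∃ r : R, algebraMap R K r = formVal a (x₀ + m) := by
    intro m hm
    have h1 : g (x₀ + m) ∈ L := by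
      rw [map_add]
      exact L.add_mem hx (hg2 m hm)
    obtain ⟨r, hr⟩ := hL _ h1
    exact ⟨r, by rw [hr, hg1, formQ_apply]⟩
  obtain ⟨x', hx'1, hx'2⟩ := exists_bad_vector v hL hLs hM hd0 hd hloc hint
  obtain ⟨y, hyL, hy0, hy⟩ := heucl x' hx'1
  have h3 := hx'2 y hyL
  rw [← formQ_apply] at h3
  exact absurd hy (not_lt.2 (norm_ge hy0 h3))

end Main

end Pool.Agent.Y374.EU
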